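import Mathlib
import Pool.Agent.H212R4.Pierce

set_option autoImplicit false

namespace Pool.Agent.Results.MP_d085fd_co.FourPoints

/-- If every at most 33 members of a finite family of convex sets in the plane can be pierced by
two points, then the whole family can be pierced by four points. -/
theorem result :
    ∀ F : Finset (Set (EuclideanSpace ℝ (Fin 2))),
      (∀ C ∈ F, Convex ℝ C) →
      (∀ G ⊆ F, G.card ≤ 33 →
        ∃ P : Finset (EuclideanSpace ℝ (Fin 2)), P.card ≤ 2 ∧ ∀ C ∈ G, ∃ p ∈ P, p ∈ C) →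
      ∃ P : Finset (EuclideanSpace ℝ (Fin 2)), P.card ≤ 4 ∧ ∀ C ∈ F, ∃ p ∈ P, p ∈ C :=
  fun F hF h => Pool.Agent.H212R4.Pierce.four_points F hF h

end Pool.Agent.Results.MP_d085fd_co.FourPoints
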